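import Pool.Agent.N463.HW.Stm

/-!
# Project HW, part ENT: the Bargmann transform is entire (for helper463)
-/

set_option autoImplicit false

namespace Pool.Agent.N383.HW

open MeasureTheory Filter Topology
open Pool.Agent.N463.HW

/-- the Gaussian is square integrable -/
theorem gauss_memLp {b : ℝ} (hb : 0 < b) : MemLp (fun t : ℝ => Real.exp (-b * t ^ 2)) 2 := by
  rw [memLp_two_iff_integrable_sq (by fun_prop)]
  have h1 : (fun t : ℝ => Real.exp (-b * t ^ 2) ^ 2) = fun t => Real.exp (-(2 * b) * t ^ 2) := by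
    funext t
    rw [← Real.exp_nat_mul]
    congr 1
    push_cast
    ring
  rw [h1]
  exact integrable_exp_neg_mul_sq (by positivity)

theorem dom_int {g : ℝ → ℂ} (hg : MemLp g 2) :
    Integrable fun t => ‖g t‖ * Real.exp (-(Real.pi / 4) * t ^ 2) :=
  hg.norm.integrable_mul (gauss_memLp (by positivity))

/-- the bound -/
theorem bound {R : ℝ} {z : ℂ} (hz : ‖z‖ ≤ R) (t : ℝ) :
    (1 + |t|) * ‖Complex.exp (-Real.pi * t ^ 2 + 2 * Real.pi * t * z)‖ ≤
      Real.exp (2 * Real.pi * R ^ 2 + 1) * Real.exp (-(Real.pi / 4) * t ^ 2) := by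
  have h1 : (-Real.pi * t ^ 2 + 2 * Real.pi * t * z : ℂ).re =
      -Real.pi * t ^ 2 + 2 * Real.pi * t * z.re := by
    have h2 : (-Real.pi * t ^ 2 + 2 * Real.pi * t * z : ℂ) =
        ((-Real.pi * t ^ 2 : ℝ) : ℂ) + ((2 * Real.pi * t : ℝ) : ℂ) * z := by
      push_cast
      ring
    rw [h2, Complex.add_re, Complex.re_ofReal_mul, Complex.ofReal_re]
  rw [Complex.norm_exp, h1, ← Real.exp_add]
  have h3 : 1 + |t| ≤ Real.exp |t| := by
    have := Real.add_one_le_exp |t|
    linarith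
  have hpi := Real.pi_gt_three
  have h4 : t * z.re ≤ |t| * R := by
    calc t * z.re ≤ |t * z.re| := le_abs_self _
      _ = |t| * |z.re| := abs_mul _ _
      _ ≤ |t| * R := mul_le_mul_of_nonneg_left ((Complex.abs_re_le_norm z).trans hz)
          (abs_nonneg t)
  have h5 : t ^ 2 = |t| ^ 2 := (sq_abs t).symm
  calc (1 + |t|) * Real.exp (-Real.pi * t ^ 2 + 2 * Real.pi * t * z.re)
      ≤ Real.exp |t| * Real.exp (-Real.pi * t ^ 2 + 2 * Real.pi * t * z.re) :=
        mul_le_mul_of_nonneg_right h3 (Real.exp_pos _).le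
    _ = Real.exp (|t| + (-Real.pi * t ^ 2 + 2 * Real.pi * t * z.re)) := (Real.exp_add _ _).symm
    _ ≤ _ := by
        refine Real.exp_le_exp.2 ?_
        have h6 : 2 * Real.pi * t * z.re ≤ 2 * Real.pi * (|t| * R) := by
          have : 2 * Real.pi * t * z.re = 2 * Real.pi * (t * z.re) := by ring
          rw [this]
          exact mul_le_mul_of_nonneg_left h4 (by positivity)
        have h7 : 0 ≤ Real.pi / 2 * (|t| - 2 * R) ^ 2 := by positivity
        have h8 : |t| ≤ Real.pi / 4 * |t| ^ 2 + 1 := by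
          have h9 : 3 / 4 * |t| ^ 2 ≤ Real.pi / 4 * |t| ^ 2 :=
            mul_le_mul_of_nonneg_right (by linarith) (by positivity)
          nlinarith [sq_nonneg (|t| - 2 / 3)]
        rw [h5]
        nlinarith

theorem meas_ker (z : ℂ) :
    Continuous fun t : ℝ => Complex.exp (-Real.pi * t ^ 2 + 2 * Real.pi * t * z) := by
  fun_prop

theorem conj_meas {g : ℝ → ℂ} (hg : MemLp g 2) :
    AEStronglyMeasurable fun t => (starRingEnd ℂ) (g t) :=
  Complex.continuous_conj.comp_aestronglyMeasurable hg.1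

theorem int0 {g : ℝ → ℂ} (hg : MemLp g 2) (z : ℂ) : Integrable (fun t : ℝ =>
    (starRingEnd ℂ) (g t) * Complex.exp (-Real.pi * t ^ 2 + 2 * Real.pi * t * z)) := by
  refine Integrable.mono' ((dom_int hg).const_mul (Real.exp (2 * Real.pi * ‖z‖ ^ 2 + 1)))
    ((conj_meas hg).mul (meas_ker z).aestronglyMeasurable) (Eventually.of_forall fun t => ?_)
  have h1 := bound le_rfl t (z := z)
  have h2 := norm_nonneg (Complex.exp (-Real.pi * t ^ 2 + 2 * Real.pi * t * z))
  rw [norm_mul, Complex.norm_conj]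
  calc ‖g t‖ * ‖Complex.exp (-Real.pi * t ^ 2 + 2 * Real.pi * t * z)‖
      ≤ ‖g t‖ * (Real.exp (2 * Real.pi * ‖z‖ ^ 2 + 1) * Real.exp (-(Real.pi / 4) * t ^ 2)) := by
        refine mul_le_mul_of_nonneg_left (le_trans ?_ h1) (norm_nonneg _)
        nlinarith [abs_nonneg t]
    _ = _ := by ring

/-- the dominating function for the derivative -/
theorem bound' {R : ℝ} {z : ℂ} (hz : ‖z‖ ≤ R) (g : ℝ → ℂ) (t : ℝ) :
    ‖(2 * Real.pi * t : ℂ) * ((starRingEnd ℂ) (g t) *
      Complex.exp (-Real.pi * t ^ 2 + 2 * Real.pi * t * z))‖ ≤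
      2 * Real.pi * Real.exp (2 * Real.pi * R ^ 2 + 1) *
        (‖g t‖ * Real.exp (-(Real.pi / 4) * t ^ 2)) := by
  have h1 := bound hz t
  have h2 := norm_nonneg (Complex.exp (-Real.pi * t ^ 2 + 2 * Real.pi * t * z))
  have h3 : ‖(2 * Real.pi * t : ℂ)‖ = 2 * Real.pi * |t| := by
    rw [norm_mul, norm_mul, Complex.norm_real, Complex.norm_real, Real.norm_eq_abs,
      Real.norm_eq_abs, abs_of_pos Real.pi_pos]
    norm_num
  rw [norm_mul (2 * Real.pi * t : ℂ), norm_mul ((starRingEnd ℂ) (g t)), Complex.norm_conj, h3]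
  calc 2 * Real.pi * |t| * (‖g t‖ * ‖Complex.exp (-Real.pi * t ^ 2 + 2 * Real.pi * t * z)‖)
      = 2 * Real.pi * ‖g t‖ * (|t| * ‖Complex.exp (-Real.pi * t ^ 2 + 2 * Real.pi * t * z)‖) := by
        ring
    _ ≤ 2 * Real.pi * ‖g t‖ *
        (Real.exp (2 * Real.pi * R ^ 2 + 1) * Real.exp (-(Real.pi / 4) * t ^ 2)) := by
        refine mul_le_mul_of_nonneg_left (le_trans ?_ h1) (by positivity)
        nlinarith
    _ = _ := by ring

theorem meas1 {g : ℝ → ℂ} (hg : MemLp g 2) (z : ℂ) :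
    AEStronglyMeasurable (fun t : ℝ => (2 * Real.pi * t : ℂ) * ((starRingEnd ℂ) (g t) *
      Complex.exp (-Real.pi * t ^ 2 + 2 * Real.pi * t * z))) := by
  have h1 : Continuous fun t : ℝ => (2 * Real.pi * t : ℂ) := by fun_prop
  exact h1.aestronglyMeasurable.mul ((conj_meas hg).mul (meas_ker z).aestronglyMeasurable)

theorem der {g : ℝ → ℂ} (hg : MemLp g 2) (z : ℂ) :
    HasDerivAt (fun z : ℂ => ∫ t : ℝ, (starRingEnd ℂ) (g t) *
      Complex.exp (-Real.pi * t ^ 2 + 2 * Real.pi * t * z))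
      (∫ t : ℝ, (2 * Real.pi * t : ℂ) * ((starRingEnd ℂ) (g t) *
        Complex.exp (-Real.pi * t ^ 2 + 2 * Real.pi * t * z))) z := by
  refine (hasDerivAt_integral_of_dominated_loc_of_deriv_le
    (F := fun (z : ℂ) (t : ℝ) => (starRingEnd ℂ) (g t) *
      Complex.exp (-Real.pi * t ^ 2 + 2 * Real.pi * t * z))
    (F' := fun (z : ℂ) (t : ℝ) => (2 * Real.pi * t : ℂ) * ((starRingEnd ℂ) (g t) *
        Complex.exp (-Real.pi * t ^ 2 + 2 * Real.pi * t * z)))
    (bound := fun t => 2 * Real.pi * Real.exp (2 * Real.pi * (‖z‖ + 1) ^ 2 + 1) *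
        (‖g t‖ * Real.exp (-(Real.pi / 4) * t ^ 2)))
    (Metric.ball_mem_nhds z one_pos)
    (Eventually.of_forall fun y => (conj_meas hg).mul (meas_ker y).aestronglyMeasurable)
    (int0 hg z) (meas1 hg z) (Eventually.of_forall fun t y hy => ?_)
    ((dom_int hg).const_mul _) (Eventually.of_forall fun t y _ => ?_)).2
  · refine bound' ?_ g t
    have h1 : ‖y - z‖ < 1 := by rwa [← dist_eq_norm]
    have h2 : ‖y‖ ≤ ‖z‖ + ‖y - z‖ := by
      have := norm_add_le z (y - z)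
      rwa [add_sub_cancel] at this
    linarith
  · have h1 : HasDerivAt (fun y : ℂ => (-Real.pi * t ^ 2 + 2 * Real.pi * t * y : ℂ))
        (2 * Real.pi * t) y := by
      have h2 := ((hasDerivAt_id y).const_mul (2 * Real.pi * t : ℂ)).const_add
        (-Real.pi * t ^ 2 : ℂ)
      exact h2.congr_deriv (mul_one _)
    have h3 := (h1.cexp).const_mul ((starRingEnd ℂ) (g t))
    refine h3.congr_deriv ?_
    ring

theorem int1 {g : ℝ → ℂ} (hg : MemLp g 2) (z : ℂ) : Integrable (fun t : ℝ => (t : ℂ) *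
    ((starRingEnd ℂ) (g t) * Complex.exp (-Real.pi * t ^ 2 + 2 * Real.pi * t * z))) := by
  have h1 : Integrable (fun t : ℝ => (2 * Real.pi * t : ℂ) *
      ((starRingEnd ℂ) (g t) * Complex.exp (-Real.pi * t ^ 2 + 2 * Real.pi * t * z))) :=
    Integrable.mono' ((dom_int hg).const_mul _) (meas1 hg z)
      (Eventually.of_forall fun t => bound' le_rfl g t)
  have h2 := h1.const_mul ((2 * Real.pi : ℂ)⁻¹)
  refine h2.congr (Eventually.of_forall fun t => ?_)
  have hpi : (Real.pi : ℂ) ≠ 0 := by exact_mod_cast Real.pi_ne_zero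
  change (2 * Real.pi : ℂ)⁻¹ * ((2 * Real.pi * t : ℂ) *
      ((starRingEnd ℂ) (g t) * Complex.exp (-Real.pi * t ^ 2 + 2 * Real.pi * t * z))) = _
  field_simp

/-- ENT -/
theorem t_ENT : S_ENT := by
  intro g hg
  refine ⟨int0 hg, int1 hg, fun z => ?_⟩
  have h1 : HasDerivAt (fun z : ℂ => Complex.exp (-Real.pi * z ^ 2 / 2))
      (Complex.exp (-Real.pi * z ^ 2 / 2) * (-Real.pi * z)) z := by
    have h2 : HasDerivAt (fun z : ℂ => (-Real.pi * z ^ 2 / 2 : ℂ)) (-Real.pi * z) z := by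
      have h3 := ((hasDerivAt_pow 2 z).const_mul (-Real.pi : ℂ)).div_const 2
      refine h3.congr_deriv ?_
      push_cast
      ring
    exact h2.cexp
  have h4 := h1.mul (der hg z)
  have h5 : bst g = fun z : ℂ => Complex.exp (-Real.pi * z ^ 2 / 2) *
      ∫ t : ℝ, (starRingEnd ℂ) (g t) *
        Complex.exp (-Real.pi * t ^ 2 + 2 * Real.pi * t * z) := rfl
  rw [h5]
  refine h4.congr_deriv ?_
  ring

end Pool.Agent.N383.HW

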